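import Mathlib

open Real

namespace Pool.Agent.H41

/-- chord inequality: triangle with apex `0`, sides `p`, `r`, apex angle `Δ`. -/
theorem chord_ineq (p r Δ η : ℝ) (hr : 0 < r) (hΔ : 0 < Δ) (hη : 0 < η)
    (hsum : Δ + η < π) (h : r * sin η < p * sin (Δ + η)) :
    Real.sqrt (p ^ 2 + r ^ 2 - 2 * p * r * cos Δ) ≤ p - r + 2 * r * Δ / η := by
  set a := (η + Δ) / 2 with ha
  set b := (η - Δ) / 2 with hb
  have hΔab : Δ = a - b := by simp only [ha, hb]; ring
  have hηab : η = a + b := by simp only [ha, hb]; ring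
  have ha0 : 0 < a := by simp only [ha]; linarith
  have ha1 : a < π / 2 := by simp only [ha]; linarith
  have hsa : 0 < sin a := sin_pos_of_pos_of_lt_pi ha0 (by linarith [pi_pos])
  have hca : 0 < cos a := cos_pos_of_mem_Ioo ⟨by linarith [pi_pos], ha1⟩
  have hsΔ : 0 < sin Δ := sin_pos_of_pos_of_lt_pi hΔ (by linarith)
  have hcond : r * sin (a + b) < p * (2 * sin a * cos a) := by
    have e1 : Δ + η = 2 * a := by simp only [ha]; ring
    rw [e1, sin_two_mul, hηab] at h
    exact h
  set B := p - r * (sin b / sin a) with hB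
  have hkey : B ^ 2 - (p ^ 2 + r ^ 2 - 2 * p * r * cos Δ)
      = (r * sin (a - b) / sin a ^ 2) * (p * (2 * sin a * cos a) - r * sin (a + b)) := by
    have hs : sin a ≠ 0 := hsa.ne'
    rw [hB, hΔab]
    rw [cos_sub, sin_sub, sin_add]
    field_simp
    have h1 := sin_sq_add_cos_sq a
    have h2 := sin_sq_add_cos_sq b
    have e1 : cos a ^ 2 = 1 - sin a ^ 2 := by linarith
    have e2 : cos b ^ 2 = 1 - sin b ^ 2 := by linarith
    ring_nf
    rw [e1, e2]
    ring
  have hBpos : 0 ≤ B := by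
    have h3 : 2 * sin b * cos a < sin (a + b) := by
      have : 0 < sin (a - b) := by rw [← hΔab]; exact hsΔ
      rw [sin_sub] at this
      rw [sin_add]; linarith
    have h4 : r * (2 * sin b * cos a) < p * (2 * sin a * cos a) :=
      lt_trans (mul_lt_mul_of_pos_left h3 hr) hcond
    have h5 : r * sin b < p * sin a := by
      have : (r * sin b) * (2 * cos a) < (p * sin a) * (2 * cos a) := by nlinarith
      exact lt_of_mul_lt_mul_right this (by positivity)
    have h6 : r * (sin b / sin a) < p := by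
      rw [← mul_div_assoc, div_lt_iff₀ hsa]
      exact h5
    linarith
  have hle : p ^ 2 + r ^ 2 - 2 * p * r * cos Δ ≤ B ^ 2 := by
    have : 0 ≤ (r * sin (a - b) / sin a ^ 2) * (p * (2 * sin a * cos a) - r * sin (a + b)) := by
      apply mul_nonneg
      · rw [← hΔab]; positivity
      · linarith
    linarith
  have h7 : Real.sqrt (p ^ 2 + r ^ 2 - 2 * p * r * cos Δ) ≤ B := by
    apply Real.sqrt_le_iff.mpr ⟨hBpos, hle⟩
  refine h7.trans ?_
  -- B ≤ p - r + 2 r Δ / η
  have h8 : sin a - sin b = 2 * sin (Δ / 2) * cos (η / 2) := by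
    rw [sin_sub_sin]
    congr 2
    · congr 1; congr 1; rw [hΔab]
    · rw [hηab]
  have hη2 : 0 < η / 2 := by linarith
  have hsη : 0 < sin (η / 2) := sin_pos_of_pos_of_lt_pi hη2 (by linarith [pi_pos])
  have hcη : 0 < cos (η / 2) := cos_pos_of_mem_Ioo ⟨by linarith [pi_pos], by linarith⟩
  have h9 : sin (η / 2) ≤ sin a := by
    apply sin_le_sin_of_le_of_le_pi_div_two <;> linarith
  have h10 : sin (Δ / 2) ≤ Δ / 2 := sin_le (by linarith)
  have h11 : η / 2 * cos (η / 2) ≤ sin (η / 2) := by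
    have := Real.lt_tan hη2 (by linarith)
    rw [tan_eq_sin_div_cos, lt_div_iff₀ hcη] at this
    exact this.le
  have h12 : (sin a - sin b) / sin a ≤ 2 * Δ / η := by
    rw [h8, div_le_div_iff₀ hsa hη]
    have hsΔ2 : 0 ≤ sin (Δ / 2) := sin_nonneg_of_nonneg_of_le_pi (by linarith) (by linarith)
    have s1 : η * cos (η / 2) ≤ 2 * sin a := by nlinarith
    calc 2 * sin (Δ / 2) * cos (η / 2) * η = 2 * sin (Δ / 2) * (η * cos (η / 2)) := by ring
      _ ≤ 2 * sin (Δ / 2) * (2 * sin a) := by
          apply mul_le_mul_of_nonneg_left s1; positivity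
      _ ≤ 2 * (Δ / 2) * (2 * sin a) := by
          apply mul_le_mul_of_nonneg_right _ (by positivity); linarith
      _ = 2 * Δ * sin a := by ring
  have h13 : (sin a - sin b) / sin a = 1 - sin b / sin a := by
    field_simp
  rw [h13] at h12
  rw [hB]
  have h14 : r * (1 - sin b / sin a) ≤ r * (2 * Δ / η) := mul_le_mul_of_nonneg_left h12 hr.le
  have h15 : r * (2 * Δ / η) = 2 * r * Δ / η := by ring
  linarith

end Pool.Agent.H41
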