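import Mathlib
import Pool.Agent.H41.Trig

open Real

namespace Pool.Agent.H41

/-- planar determinant -/
noncomputable def cdet (z w : ℂ) : ℝ := z.re * w.im - z.im * w.re

/-- angle from `z` to `w` -/
noncomputable def ang (z w : ℂ) : ℝ := Complex.arg (w / z)

lemma cdet_sub_right (z w v : ℂ) : cdet z (w - v) = cdet z w - cdet z v := by
  simp [cdet]; ring

lemma cdet_self (z : ℂ) : cdet z z = 0 := by simp [cdet]; ring

lemma cdet_swap (z w : ℂ) : cdet z w = - cdet w z := by simp [cdet]; ring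

lemma ne_zero_left_of_cdet {z w : ℂ} (h : 0 < cdet z w) : z ≠ 0 := by
  rintro rfl; simp [cdet] at h

lemma ne_zero_right_of_cdet {z w : ℂ} (h : 0 < cdet z w) : w ≠ 0 := by
  rintro rfl; simp [cdet] at h

lemma div_im_eq {z w : ℂ} : (w / z).im = cdet z w / ‖z‖ ^ 2 := by
  rw [Complex.div_im, ← Complex.normSq_eq_norm_sq]
  simp only [cdet]; ring

lemma cdet_eq_sin {z w : ℂ} (hz : z ≠ 0) : cdet z w = ‖z‖ * ‖w‖ * sin (ang z w) := by
  have h1 : (w / z).im = ‖w / z‖ * sin (ang z w) := by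
    rw [ang, Complex.norm_mul_sin_arg]
  rw [div_im_eq, norm_div] at h1
  have hz' : 0 < ‖z‖ := norm_pos_iff.mpr hz
  field_simp at h1
  linarith

lemma cinner_eq_cos {z w : ℂ} (hz : z ≠ 0) :
    z.re * w.re + z.im * w.im = ‖z‖ * ‖w‖ * cos (ang z w) := by
  have h1 : (w / z).re = ‖w / z‖ * cos (ang z w) := by
    rw [ang, Complex.norm_mul_cos_arg]
  have h2 : (w / z).re = (z.re * w.re + z.im * w.im) / ‖z‖ ^ 2 := by
    rw [Complex.div_re, ← Complex.normSq_eq_norm_sq]; ring
  rw [h2, norm_div] at h1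
  have hz' : 0 < ‖z‖ := norm_pos_iff.mpr hz
  field_simp at h1
  linarith

lemma ang_pos {z w : ℂ} (h : 0 < cdet z w) : 0 < ang z w := by
  have hz := ne_zero_left_of_cdet h
  have hz' : 0 < ‖z‖ := norm_pos_iff.mpr hz
  have h1 : 0 < (w / z).im := by rw [div_im_eq]; positivity
  have h2 : 0 ≤ ang z w := by rw [ang]; exact Complex.arg_nonneg_iff.mpr h1.le
  rcases h2.lt_or_eq with h3 | h3
  · exact h3
  · exfalso
    have := Complex.arg_eq_zero_iff.mp (show Complex.arg (w / z) = 0 from h3.symm)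
    linarith [this.2]

lemma ang_lt_pi {z w : ℂ} (h : 0 < cdet z w) : ang z w < π := by
  have hz := ne_zero_left_of_cdet h
  have hz' : 0 < ‖z‖ := norm_pos_iff.mpr hz
  have h1 : 0 < (w / z).im := by rw [div_im_eq]; positivity
  have h2 : ang z w ≤ π := Complex.arg_le_pi _
  rcases h2.lt_or_eq with h3 | h3
  · exact h3
  · exfalso
    have := Complex.arg_eq_pi_iff.mp (show Complex.arg (w / z) = π from h3)
    linarith [this.2]

lemma ang_add {x y z : ℂ} (hxy : 0 < cdet x y) (hyz : 0 < cdet y z) (hxz : 0 < cdet x z) :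
    ang x z = ang x y + ang y z := by
  have hx := ne_zero_left_of_cdet hxy
  have hy := ne_zero_left_of_cdet hyz
  have hz := ne_zero_right_of_cdet hyz
  have e : z / x = (y / x) * (z / y) := by field_simp
  have a1 := ang_pos hxy
  have a2 := ang_lt_pi hxy
  have b1 := ang_pos hyz
  have b2 := ang_lt_pi hyz
  have him : 0 < (z / x).im := by
    rw [div_im_eq]
    have : 0 < ‖x‖ := norm_pos_iff.mpr hx
    positivity
  have hs : 0 < sin (ang x y + ang y z) := by
    have e2 : (z / x).im = ‖y / x‖ * ‖z / y‖ * sin (ang x y + ang y z) := by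
      rw [e, Complex.mul_im, sin_add]
      have h1 : (y / x).im = ‖y / x‖ * sin (ang x y) := by rw [ang, Complex.norm_mul_sin_arg]
      have h2 : (y / x).re = ‖y / x‖ * cos (ang x y) := by rw [ang, Complex.norm_mul_cos_arg]
      have h3 : (z / y).im = ‖z / y‖ * sin (ang y z) := by rw [ang, Complex.norm_mul_sin_arg]
      have h4 : (z / y).re = ‖z / y‖ * cos (ang y z) := by rw [ang, Complex.norm_mul_cos_arg]
      rw [h1, h2, h3, h4]; ring
    rw [e2] at him
    have hp : 0 < ‖y / x‖ * ‖z / y‖ := by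
      have h1 : y / x ≠ 0 := div_ne_zero hy hx
      have h2 : z / y ≠ 0 := div_ne_zero hz hy
      positivity
    exact (mul_pos_iff_of_pos_left hp).mp him
  have hlt : ang x y + ang y z < π := by
    by_contra hcon
    push Not at hcon
    have : sin (ang x y + ang y z) ≤ 0 := by
      have h1 : sin (ang x y + ang y z) = - sin (ang x y + ang y z - π) := by
        rw [sin_sub_pi]; ring
      rw [h1]
      have : 0 ≤ sin (ang x y + ang y z - π) := by
        apply sin_nonneg_of_nonneg_of_le_pi <;> linarith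
      linarith
    linarith
  unfold ang at *
  rw [e]
  apply Complex.arg_mul (div_ne_zero hy hx) (div_ne_zero hz hy)
  constructor <;> linarith

lemma chord_complex {p q y : ℂ} (hpq : 0 < cdet p q) (hqy : 0 < cdet q y) (hpy : 0 < cdet p y)
    (h : 0 < cdet y (q - p)) :
    ‖q - p‖ ≤ ‖p‖ - ‖q‖ + 2 * ‖q‖ * ang p q / ang q y := by
  have hp := ne_zero_left_of_cdet hpq
  have hq := ne_zero_left_of_cdet hqy
  have hy := ne_zero_right_of_cdet hqy
  have hp' : 0 < ‖p‖ := norm_pos_iff.mpr hp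
  have hq' : 0 < ‖q‖ := norm_pos_iff.mpr hq
  have hy' : 0 < ‖y‖ := norm_pos_iff.mpr hy
  have hadd := ang_add hpq hqy hpy
  have e1 : ‖q - p‖ ^ 2 = ‖p‖ ^ 2 + ‖q‖ ^ 2 - 2 * ‖p‖ * ‖q‖ * cos (ang p q) := by
    have h1 := cinner_eq_cos (z := p) (w := q) hp
    have h2 : ‖q - p‖ ^ 2 = ‖p‖ ^ 2 + ‖q‖ ^ 2 - 2 * (p.re * q.re + p.im * q.im) := by
      rw [← Complex.normSq_eq_norm_sq, ← Complex.normSq_eq_norm_sq, ← Complex.normSq_eq_norm_sq,
        Complex.normSq_apply, Complex.normSq_apply, Complex.normSq_apply]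
      simp only [Complex.sub_re, Complex.sub_im]
      ring
    rw [h2, h1]; ring
  have e2 : ‖q - p‖ = Real.sqrt (‖p‖ ^ 2 + ‖q‖ ^ 2 - 2 * ‖p‖ * ‖q‖ * cos (ang p q)) := by
    rw [← e1, Real.sqrt_sq (norm_nonneg _)]
  rw [e2]
  apply chord_ineq _ _ _ _ hq' (ang_pos hpq) (ang_pos hqy)
  · rw [← hadd]; exact ang_lt_pi hpy
  · rw [cdet_sub_right, cdet_swap y q, cdet_swap y p, cdet_eq_sin hq, cdet_eq_sin hp, hadd] at h
    have : 0 < ‖y‖ * (‖p‖ * sin (ang p q + ang q y) - ‖q‖ * sin (ang q y)) := by linarith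
    have := (mul_pos_iff_of_pos_left hy').mp this
    linarith

end Pool.Agent.H41
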