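import Mathlib

open Real Finset

namespace Pool.Agent.H41

theorem discrete_core (M : ℕ) (e κ : ℝ) (he1 : 1 < e) (he2 : 2 * e ≤ 3)
    (hκ0 : 0 < κ) (hκ : κ ≤ M * log e - 1 - 4 * (e - 1))
    (x U d : ℕ → ℝ) (hx : ∀ j, 0 < x j) (hxe : ∀ j, x j = e * x (j + 1))
    (hU1 : ∀ j, x j ≤ 2 * U j) (hU2 : ∀ j, U j ≤ x j) (hU3 : ∀ j, U (j + 1) ≤ U j)
    (hU4 : ∀ j, U j - U (j + 1) ≤ x j - x (j + 1))
    (hd : ∀ j, 0 < d j) (hdpi : ∀ j, ∑ k ∈ range M, d (j + k) ≤ π)
    (key : ∀ i, (U (i + M) - U (i + M + 1)) * ∑ k ∈ range M, d (i + k)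
      ≤ d (i + M) * (2 * U (i + M) - x (i + M + 1))) : False := by
  have he0 : 0 < e := by linarith
  have hUpos : ∀ j, 0 < U j := fun j => by have := hU1 j; have := hx j; linarith
  set Y : ℕ → ℝ := fun j => log (U j) with hY
  set R : ℕ → ℝ := fun j => (2 * U j - x (j + 1)) / U (j + 1) with hR
  set a : ℕ → ℝ := fun i => Y (i + M) - Y (i + M + 1) with ha
  have hYanti : ∀ j, Y (j + 1) ≤ Y j := fun j => log_le_log (hUpos _) (hU3 j)
  have ha0 : ∀ i, 0 ≤ a i := fun i => by simp only [ha]; linarith [hYanti (i + M)]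
  -- upper bound of `Y` differences
  have hYdiff : ∀ j, Y j - Y (j + 1) ≤ (U j - U (j + 1)) / U (j + 1) := by
    intro j
    have h1 : Y j - Y (j + 1) = log (U j / U (j + 1)) := by
      simp only [hY]; rw [log_div (hUpos _).ne' (hUpos _).ne']
    rw [h1]
    have h2 := log_le_sub_one_of_pos (div_pos (hUpos j) (hUpos (j + 1)))
    have h3 : U j / U (j + 1) - 1 = (U j - U (j + 1)) / U (j + 1) := by
      have := (hUpos (j + 1)).ne'
      field_simp
    linarith
  have hstep : ∀ i, a i * ∑ k ∈ range M, d (i + k) ≤ d (i + M) * R (i + M) := by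
    intro i
    have hs : 0 ≤ ∑ k ∈ range M, d (i + k) := sum_nonneg fun k _ => (hd _).le
    have hUp := hUpos (i + M + 1)
    calc a i * ∑ k ∈ range M, d (i + k)
        ≤ (U (i + M) - U (i + M + 1)) / U (i + M + 1) * ∑ k ∈ range M, d (i + k) :=
          mul_le_mul_of_nonneg_right (hYdiff _) hs
      _ = ((U (i + M) - U (i + M + 1)) * ∑ k ∈ range M, d (i + k)) / U (i + M + 1) := by ring
      _ ≤ (d (i + M) * (2 * U (i + M) - x (i + M + 1))) / U (i + M + 1) := by
          apply div_le_div_of_nonneg_right (key i) hUp.le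
      _ = d (i + M) * R (i + M) := by simp only [hR]; ring
  -- bounds on R
  have hRle : ∀ j, R j ≤ 2 - (3 - 2 * e) * (x (j + 1) / U (j + 1)) := by
    intro j
    have hUp := hUpos (j + 1)
    have h1 : U j ≤ U (j + 1) + (e - 1) * x (j + 1) := by
      have := hU4 j
      have := hxe j
      linarith
    have h2 : R j ≤ (2 * (U (j + 1) + (e - 1) * x (j + 1)) - x (j + 1)) / U (j + 1) := by
      simp only [hR]
      apply div_le_div_of_nonneg_right _ hUp.le
      linarith
    have h3 : (2 * (U (j + 1) + (e - 1) * x (j + 1)) - x (j + 1)) / U (j + 1)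
        = 2 - (3 - 2 * e) * (x (j + 1) / U (j + 1)) := by
      field_simp
      ring
    linarith
  have hxU : ∀ j, 0 < x j / U j := fun j => div_pos (hx j) (hUpos j)
  have hxU2 : ∀ j, x j / U j ≤ 2 := fun j => by
    rw [div_le_iff₀ (hUpos j)]; exact hU1 j
  have hR2 : ∀ j, R j ≤ 2 := by
    intro j
    have h1 := hRle j
    have h2 : 0 ≤ (3 - 2 * e) * (x (j + 1) / U (j + 1)) :=
      mul_nonneg (by linarith) (hxU _).le
    linarith
  -- log of x
  have hlogx : ∀ n j, log (x j) - log (x (j + n)) = n * log e := by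
    intro n
    induction n with
    | zero => intro j; simp
    | succ n ih =>
      intro j
      have h1 := ih j
      have h2 : log (x (j + n)) = log e + log (x (j + n + 1)) := by
        rw [hxe (j + n), log_mul he0.ne' (hx _).ne']
      push_cast
      rw [show j + (n + 1) = j + n + 1 by ring]
      linarith
  have hYlow : ∀ j, 1 - x j / U j + M * log e ≤ Y j - Y (j + M) := by
    intro j
    have h1 := hlogx M j
    have h2 : Y (j + M) ≤ log (x (j + M)) := log_le_log (hUpos _) (hU2 _)
    have h3 : 1 - x j / U j ≤ log (U j / x j) := by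
      have := one_sub_inv_le_log_of_pos (div_pos (hUpos j) (hx j))
      rw [inv_div] at this
      exact this
    rw [log_div (hUpos _).ne' (hx _).ne'] at h3
    simp only [hY] at *
    linarith
  -- the key comparison
  have hcomp : ∀ l, κ + R (l + M) ≤ Y (l + M + 1) - Y (l + M + 1 + M) := by
    intro l
    have h1 := hYlow (l + M + 1)
    have h2 := hRle (l + M)
    have h3 := hxU2 (l + M + 1)
    have h4 := hxU (l + M + 1)
    nlinarith
  -- double counting
  have hdouble : ∀ n, ∑ l ∈ range n, d (l + M) * (Y (l + M + 1) - Y (l + M + 1 + M))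
      ≤ ∑ i ∈ range (n + M), a i * ∑ k ∈ range M, d (i + k) := by
    intro n
    have hA : ∑ i ∈ range (n + M), a i * ∑ k ∈ range M, d (i + k)
        = ∑ k ∈ range M, ∑ i ∈ range (n + M), a i * d (i + k) := by
      rw [sum_comm]
      apply sum_congr rfl
      intro i _
      rw [mul_sum]
    have hB : ∀ k ∈ range M, ∑ l ∈ range n, a (l + (M - k)) * d (l + M)
        ≤ ∑ i ∈ range (n + M), a i * d (i + k) := by
      intro k hk
      have hkM : k < M := mem_range.mp hk
      have h1 : ∑ l ∈ range n, a (l + (M - k)) * d (l + M)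
          = ∑ i ∈ (range n).map (addRightEmbedding (M - k)), a i * d (i + k) := by
        rw [sum_map]
        apply sum_congr rfl
        intro l _
        simp only [addRightEmbedding_apply]
        rw [show l + (M - k) + k = l + M by omega]
      rw [h1]
      apply sum_le_sum_of_subset_of_nonneg
      · intro i hi
        simp only [mem_map, mem_range, addRightEmbedding_apply] at hi ⊢
        obtain ⟨l, hl, rfl⟩ := hi
        omega
      · intro i _ _
        exact mul_nonneg (ha0 i) (hd _).le
    have hC : ∑ l ∈ range n, d (l + M) * (Y (l + M + 1) - Y (l + M + 1 + M))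
        = ∑ k ∈ range M, ∑ l ∈ range n, a (l + (M - k)) * d (l + M) := by
      rw [sum_comm]
      apply sum_congr rfl
      intro l _
      rw [← sum_mul, mul_comm]
      congr 1
      -- telescoping
      have h2 : ∑ k ∈ range M, a (l + (M - k)) = ∑ k ∈ range M, a (l + (k + 1)) := by
        rw [← sum_range_reflect]
        apply sum_congr rfl
        intro k hk
        have hkM : k < M := mem_range.mp hk
        congr 2
        omega
      rw [h2]
      have h3 : ∀ m, ∑ k ∈ range m, a (l + (k + 1)) = Y (l + M + 1) - Y (l + M + 1 + m) := by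
        intro m
        induction m with
        | zero => simp
        | succ m ih =>
          rw [sum_range_succ, ih]
          simp only [ha]
          rw [show l + (m + 1) + M = l + M + 1 + m by ring]
          rw [show l + M + 1 + (m + 1) = l + M + 1 + m + 1 by ring]
          ring
      rw [h3]
    rw [hA, hC]
    exact sum_le_sum hB
  -- main inequality
  set D : ℕ → ℝ := fun n => ∑ l ∈ range n, d (l + M) with hD
  have hmain : ∀ n, κ * D n ≤ 2 * (D (n + M) - D n) := by
    intro n
    have h1 : ∑ i ∈ range (n + M), a i * ∑ k ∈ range M, d (i + k)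
        ≤ ∑ i ∈ range (n + M), d (i + M) * R (i + M) := sum_le_sum fun i _ => hstep i
    have h2 : ∑ i ∈ range (n + M), d (i + M) * R (i + M)
        = ∑ i ∈ range n, d (i + M) * R (i + M)
          + ∑ k ∈ range M, d (n + k + M) * R (n + k + M) := by
      rw [sum_range_add]
    have h3 : ∑ k ∈ range M, d (n + k + M) * R (n + k + M)
        ≤ ∑ k ∈ range M, d (n + k + M) * 2 :=
      sum_le_sum fun k _ => mul_le_mul_of_nonneg_left (hR2 _) (hd _).le
    have h4 : D (n + M) = D n + ∑ k ∈ range M, d (n + k + M) := by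
      simp only [hD]; rw [sum_range_add]
    have h5 : ∑ l ∈ range n, d (l + M) * (κ + R (l + M))
        ≤ ∑ l ∈ range n, d (l + M) * (Y (l + M + 1) - Y (l + M + 1 + M)) :=
      sum_le_sum fun l _ => mul_le_mul_of_nonneg_left (hcomp l) (hd _).le
    have h6 : ∑ l ∈ range n, d (l + M) * (κ + R (l + M))
        = κ * D n + ∑ i ∈ range n, d (i + M) * R (i + M) := by
      simp only [hD]
      rw [mul_sum, ← sum_add_distrib]
      apply sum_congr rfl
      intro l _
      ring
    have h7 := hdouble n
    rw [← sum_mul] at h3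
    linarith
  have hDpi : ∀ n, D (n + M) - D n ≤ π := by
    intro n
    have h4 : D (n + M) = D n + ∑ k ∈ range M, d (n + k + M) := by
      simp only [hD]; rw [sum_range_add]
    have h5 := hdpi (n + M)
    have h6 : ∑ k ∈ range M, d (n + M + k) = ∑ k ∈ range M, d (n + k + M) := by
      apply sum_congr rfl; intro k _; congr 1; ring
    linarith
  have hDbound : ∀ n, D n ≤ 2 * π / κ := by
    intro n
    rw [le_div_iff₀ hκ0]
    linarith [hmain n, hDpi n]
  have hDone : 0 < D 1 := by simp only [hD]; simpa using hd _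
  have hgrow : ∀ j, (1 + κ / 2) ^ j * D 1 ≤ D (1 + j * M) := by
    intro j
    induction j with
    | zero => simp
    | succ j ih =>
      have h1 := hmain (1 + j * M)
      rw [show 1 + (j + 1) * M = 1 + j * M + M by ring, pow_succ]
      have h2 : (1 + κ / 2) * D (1 + j * M) ≤ D (1 + j * M + M) := by linarith
      calc (1 + κ / 2) ^ j * (1 + κ / 2) * D 1 = (1 + κ / 2) * ((1 + κ / 2) ^ j * D 1) := by ring
        _ ≤ (1 + κ / 2) * D (1 + j * M) := mul_le_mul_of_nonneg_left ih (by linarith)
        _ ≤ _ := h2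
  obtain ⟨j, hj⟩ := pow_unbounded_of_one_lt (2 * π / κ / D 1) (show 1 < 1 + κ / 2 by linarith)
  have h1 := hgrow j
  have h2 := hDbound (1 + j * M)
  rw [div_lt_iff₀ hDone] at hj
  linarith

end Pool.Agent.H41
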