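import Mathlib
import Pool.Agent.H41.Ang
import Pool.Agent.H41.Discrete

open Real Set Filter

namespace Pool.Agent.H41

/-- A curve whose increments are dominated by the increments of `Ψ` has variation at most
the increment of `Ψ`. -/
lemma eVariationOn_le_of_increment {E : Type*} [SeminormedAddCommGroup E] {f : ℝ → E}
    {Ψ : ℝ → ℝ} {p q : ℝ}
    (h : ∀ s ∈ Icc p q, ∀ s' ∈ Icc p q, s ≤ s' → ‖f s' - f s‖ ≤ Ψ s' - Ψ s) :
    eVariationOn f (Icc p q) ≤ ENNReal.ofReal (Ψ q - Ψ p) := by
  apply iSup_le _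
  rintro ⟨n, ⟨u, hu, us⟩⟩
  have hstep : ∀ i, ‖f (u (i + 1)) - f (u i)‖ ≤ Ψ (u (i + 1)) - Ψ (u i) := fun i =>
    h _ (us i) _ (us (i + 1)) (hu (Nat.le_succ _))
  have hnn : ∀ i, 0 ≤ Ψ (u (i + 1)) - Ψ (u i) := fun i => (norm_nonneg _).trans (hstep i)
  calc ∑ i ∈ Finset.range n, edist (f (u (i + 1))) (f (u i))
      ≤ ∑ i ∈ Finset.range n, ENNReal.ofReal (Ψ (u (i + 1)) - Ψ (u i)) := by
        apply Finset.sum_le_sum
        intro i _
        rw [edist_dist, dist_eq_norm]
        exact ENNReal.ofReal_le_ofReal (hstep i)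
    _ = ENNReal.ofReal (∑ i ∈ Finset.range n, (Ψ (u (i + 1)) - Ψ (u i))) := by
        rw [ENNReal.ofReal_sum_of_nonneg]
        exact fun i _ => hnn i
    _ = ENNReal.ofReal (Ψ (u n) - Ψ (u 0)) := by
        rw [Finset.sum_range_sub (fun i => Ψ (u i))]
    _ ≤ _ := by
        apply ENNReal.ofReal_le_ofReal
        have hpq : p ≤ q := (us 0).1.trans (us 0).2
        have h1 := h _ (us n) q ⟨hpq, le_rfl⟩ (us n).2
        have h2 := h p ⟨le_rfl, hpq⟩ _ (us 0) (us 0).1
        have h3 := norm_nonneg (f q - f (u n))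
        have h4 := norm_nonneg (f (u 0) - f p)
        linarith

theorem oriented_false (K Λ : ℝ) (hK : 1 < K) (hΛ : 0 < Λ) (f : ℝ → ℂ)
    (hlen : ∀ x y, 0 ≤ x → x ≤ y → y ≤ Λ → eVariationOn f (Icc x y) = ENNReal.ofReal (y - x))
    (hf0 : f 0 = 0)
    (hor : ∀ x1 x2 y, 0 < x1 → x1 < x2 → x2 ≤ y → y ≤ Λ → exp (-K) * y ≤ x1 →
      0 < cdet (f y) (f x2 - f x1)) : False := by
  -- unit speed implies 1-Lipschitz
  have hlip : ∀ x y, 0 ≤ x → x ≤ y → y ≤ Λ → ‖f y - f x‖ ≤ y - x := by
    intro x y hx hxy hy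
    have h1 : edist (f y) (f x) ≤ eVariationOn f (Icc x y) :=
      eVariationOn.edist_le f ⟨hxy, le_rfl⟩ ⟨le_rfl, hxy⟩
    rw [hlen x y hx hxy hy, edist_dist, dist_eq_norm,
      ENNReal.ofReal_le_ofReal_iff (by linarith)] at h1
    exact h1
  have hdetpos : ∀ x y, 0 < x → x < y → y ≤ Λ → exp (-K) * y ≤ x → 0 < cdet (f x) (f y) := by
    intro x y hx hxy hy hc
    have := hor x y y hx hxy le_rfl hy hc
    rw [cdet_sub_right, cdet_self, cdet_swap] at this
    linarith
  have hnorm_le : ∀ x, 0 ≤ x → x ≤ Λ → ‖f x‖ ≤ x := by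
    intro x hx hxΛ
    have := hlip 0 x le_rfl hx hxΛ
    rw [hf0, sub_zero, sub_zero] at this
    exact this
  -- choice of M
  obtain ⟨M, hM1, hM2, hM3⟩ : ∃ M : ℕ, 1 ≤ M ∧ 2 * exp (K / (M + 1)) ≤ 3 ∧
      (K - 1) / 2 ≤ M * (K / (M + 1)) - 1 - 4 * (exp (K / (M + 1)) - 1) := by
    have t1 : Tendsto (fun M : ℕ => K / ((M : ℝ) + 1)) atTop (nhds 0) := by
      have := tendsto_one_div_add_atTop_nhds_zero_nat (𝕜 := ℝ)
      have h2 := this.const_mul K
      simpa [div_eq_mul_inv] using h2
    have t2 : Tendsto (fun M : ℕ => exp (K / ((M : ℝ) + 1))) atTop (nhds 1) := by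
      have := (continuous_exp.tendsto 0).comp t1
      simpa [Function.comp_def] using this
    have t3 : Tendsto (fun M : ℕ => (M : ℝ) * (K / ((M : ℝ) + 1))) atTop (nhds K) := by
      have e1 : ∀ M : ℕ, (M : ℝ) * (K / ((M : ℝ) + 1)) = K - K / ((M : ℝ) + 1) := by
        intro M
        have : (M : ℝ) + 1 ≠ 0 := by positivity
        field_simp
        ring
      simp_rw [e1]
      simpa using t1.const_sub K
    have t4 : Tendsto (fun M : ℕ => (M : ℝ) * (K / ((M : ℝ) + 1)) - 1
        - 4 * (exp (K / ((M : ℝ) + 1)) - 1)) atTop (nhds (K - 1 - 4 * (1 - 1))) :=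
      (t3.sub_const 1).sub ((t2.sub_const 1).const_mul 4)
    have e1 : ∀ᶠ M : ℕ in atTop, (K - 1) / 2 < (M : ℝ) * (K / ((M : ℝ) + 1)) - 1
        - 4 * (exp (K / ((M : ℝ) + 1)) - 1) :=
      t4.eventually_const_lt (by linarith)
    have e2 : ∀ᶠ M : ℕ in atTop, exp (K / ((M : ℝ) + 1)) < 3 / 2 :=
      t2.eventually_lt_const (by norm_num)
    obtain ⟨M, h1, h2, h3⟩ := (e1.and (e2.and (eventually_ge_atTop 1))).exists
    exact ⟨M, h3, by linarith, h1.le⟩
  set e := exp (K / (M + 1)) with he
  have hMpos : (0 : ℝ) < (M : ℝ) + 1 := by positivity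
  have he1 : 1 < e := by
    rw [he]; apply one_lt_exp_iff.mpr; positivity
  have he0 : 0 < e := by linarith
  have hloge : log e = K / (M + 1) := by rw [he, log_exp]
  have hepow : e ^ (M + 1) = exp K := by
    rw [he, ← exp_nat_mul]
    congr 1
    push_cast
    field_simp
  set x : ℕ → ℝ := fun j => Λ / e ^ j with hxdef
  have hxpos : ∀ j, 0 < x j := fun j => by simp only [hxdef]; positivity
  have hxe : ∀ j, x j = e * x (j + 1) := fun j => by
    simp only [hxdef]; rw [pow_succ]; field_simp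
  have hxanti : StrictAnti x := by
    apply strictAnti_nat_of_succ_lt
    intro j
    rw [hxe j]
    have := hxpos (j + 1)
    nlinarith
  have hxle : ∀ j, x j ≤ Λ := fun j => by
    have := hxanti.antitone (Nat.zero_le j)
    simpa [hxdef] using this
  have hxK : ∀ j, exp (-K) * x j = x (j + (M + 1)) := by
    intro j
    simp only [hxdef]
    rw [pow_add, hepow, exp_neg]
    field_simp
  have hxKle : ∀ i j, i ≤ j + (M + 1) → exp (-K) * x j ≤ x i := by
    intro i j hij
    rw [hxK]
    exact hxanti.antitone hij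
  have hdet : ∀ i j, j < i → i ≤ j + (M + 1) → 0 < cdet (f (x i)) (f (x j)) := by
    intro i j hji hij
    exact hdetpos _ _ (hxpos i) (hxanti hji) (hxle j) (hxKle i j hij)
  set U : ℕ → ℝ := fun j => (x j + ‖f (x j)‖) / 2 with hUdef
  set d : ℕ → ℝ := fun j => ang (f (x (j + 1))) (f (x j)) with hddef
  have htel : ∀ j n, n ≤ M → ∑ k ∈ Finset.range (n + 1), d (j + k)
      = ang (f (x (j + (n + 1)))) (f (x j)) := by
    intro j n
    induction n with
    | zero => intro _; simp [hddef]
    | succ n ih =>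
      intro hn
      rw [Finset.sum_range_succ, ih (by omega)]
      simp only [hddef]
      have h1 : 0 < cdet (f (x (j + (n + 1) + 1))) (f (x (j + (n + 1)))) :=
        hdet _ _ (by omega) (by omega)
      have h2 : 0 < cdet (f (x (j + (n + 1)))) (f (x j)) := hdet _ _ (by omega) (by omega)
      have h3 : 0 < cdet (f (x (j + (n + 1) + 1))) (f (x j)) := hdet _ _ (by omega) (by omega)
      have := ang_add h1 h2 h3
      rw [show j + (n + 1 + 1) = j + (n + 1) + 1 by ring, this]
      ring
  refine discrete_core M e ((K - 1) / 2) he1 hM2 (by linarith) (by rw [hloge]; exact hM3)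
    x U d hxpos hxe ?_ ?_ ?_ ?_ ?_ ?_ ?_
  · intro j
    simp only [hUdef]
    have := norm_nonneg (f (x j))
    linarith
  · intro j
    simp only [hUdef]
    have := hnorm_le (x j) (hxpos j).le (hxle j)
    linarith
  · intro j
    simp only [hUdef]
    have h1 := hlip (x (j + 1)) (x j) (hxpos _).le (hxanti (Nat.lt_succ_self j)).le (hxle j)
    have h2 : ‖f (x (j + 1))‖ ≤ ‖f (x j)‖ + ‖f (x j) - f (x (j + 1))‖ := by
      have := norm_sub_norm_le (f (x (j + 1))) (f (x j))
      rw [norm_sub_rev] at this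
      linarith
    linarith
  · intro j
    simp only [hUdef]
    have h1 := hlip (x (j + 1)) (x j) (hxpos _).le (hxanti (Nat.lt_succ_self j)).le (hxle j)
    have h2 := norm_sub_norm_le (f (x j)) (f (x (j + 1)))
    linarith
  · intro j
    exact ang_pos (hdet _ _ (by omega) (by omega))
  · intro j
    obtain ⟨n, rfl⟩ : ∃ n, M = n + 1 := ⟨M - 1, by omega⟩
    rw [htel j n (by omega)]
    exact (ang_lt_pi (hdet _ _ (by omega) (by omega))).le
  · -- the key inequality
    intro i
    obtain ⟨n, hn⟩ : ∃ n, M = n + 1 := ⟨M - 1, by omega⟩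
    have hH : ∑ k ∈ Finset.range M, d (i + k) = ang (f (x (i + M))) (f (x i)) := by
      rw [hn]
      exact htel i n (by omega)
    rw [hH]
    set H := ang (f (x (i + M))) (f (x i)) with hHdef
    have hdetH : 0 < cdet (f (x (i + M))) (f (x i)) := hdet _ _ (by omega) (by omega)
    have hHpos : 0 < H := ang_pos hdetH
    set p := x (i + M + 1) with hp
    set q := x (i + M) with hq
    set y := x i with hy
    have hpq : p < q := hxanti (by omega)
    have hqy : q < y := hxanti (by omega)
    have hp0 : 0 < p := hxpos _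
    have hyΛ : y ≤ Λ := hxle _
    have hcy : exp (-K) * y ≤ p := hxKle _ _ (by omega)
    set R := 2 * U (i + M) - p with hR
    have hRU : R = q + ‖f q‖ - p := by simp only [hR, hUdef, hq]; ring
    have hcexp : ∀ s s', p ≤ s → s' ≤ y → exp (-K) * s' ≤ s := by
      intro s s' hs hs'
      calc exp (-K) * s' ≤ exp (-K) * y := mul_le_mul_of_nonneg_left hs' (exp_pos _).le
        _ ≤ p := hcy
        _ ≤ s := hs
    have hD : ∀ s s', p ≤ s → s < s' → s' ≤ y → 0 < cdet (f s) (f s') := by
      intro s s' h1 h2 h3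
      exact hdetpos s s' (by linarith) h2 (by linarith) (hcexp s s' h1 h3)
    have hnormR : ∀ s', p ≤ s' → s' ≤ q → ‖f s'‖ ≤ R := by
      intro s' h1 h2
      rw [hRU]
      have h3 := hlip s' q (by linarith) h2 (by linarith)
      have h4 : ‖f s'‖ ≤ ‖f q‖ + ‖f q - f s'‖ := by
        have := norm_sub_norm_le (f s') (f q)
        rw [norm_sub_rev] at this
        linarith
      linarith
    have hR0 : 0 ≤ R := (norm_nonneg _).trans (hnormR q hpq.le le_rfl)
    have hself : ∀ s, p ≤ s → s ≤ q → ang (f s) (f s) = 0 := by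
      intro s h1 h2
      have h3 : 0 < cdet (f s) (f y) := hD s y h1 (by linarith) le_rfl
      have h4 := ne_zero_left_of_cdet h3
      rw [ang, div_self h4, Complex.arg_one]
    -- angle additivity on the cell
    have hangadd : ∀ s s', p ≤ s → s < s' → s' ≤ q →
        ang (f p) (f s') = ang (f p) (f s) + ang (f s) (f s') := by
      intro s s' h1 h2 h3
      rcases h1.eq_or_lt with h4 | h4
      · subst h4
        rw [hself p le_rfl hpq.le, zero_add]
      · exact ang_add (hD p s le_rfl h4 (by linarith)) (hD s s' h1 h2 (by linarith))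
          (hD p s' le_rfl (by linarith) (by linarith))
    have hη : ∀ s', p ≤ s' → s' ≤ q → H ≤ ang (f s') (f y) := by
      intro s' h1 h2
      rcases h2.eq_or_lt with h3 | h3
      · rw [h3]
      · have h4 := ang_add (hD s' q h1 h3 hqy.le) (hD q y hpq.le hqy le_rfl)
          (hD s' y h1 (by linarith) le_rfl)
        have h5 := ang_pos (hD s' q h1 h3 hqy.le)
        rw [h4]
        linarith
    have hvar := eVariationOn_le_of_increment (f := f) (p := p) (q := q)
      (Ψ := fun s => (2 * R / H) * ang (f p) (f s) - ‖f s‖) (by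
        intro s hs s' hs' hss'
        rcases hss'.eq_or_lt with h0 | h0
        · subst h0; simp
        have h1 := chord_complex (p := f s) (q := f s') (y := f y)
          (hD s s' hs.1 h0 (by linarith [hs'.2])) (hD s' y hs'.1 (by linarith [hs'.2]) le_rfl)
          (hD s y hs.1 (by linarith [hs'.2]) le_rfl)
          (hor s s' y (by linarith [hs.1]) h0 (by linarith [hs'.2]) hyΛ (hcexp s y hs.1 le_rfl))
        have h2 := hangadd s s' hs.1 h0 hs'.2
        have h3 := ang_pos (hD s s' hs.1 h0 (by linarith [hs'.2]))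
        have h4 := hη s' hs'.1 hs'.2
        have h5 := hnormR s' hs'.1 hs'.2
        have h6 : 2 * ‖f s'‖ * ang (f s) (f s') / ang (f s') (f y)
            ≤ (2 * R / H) * ang (f s) (f s') := by
          rw [div_mul_eq_mul_div]
          apply div_le_div₀ _ _ hHpos h4
          · positivity
          · apply mul_le_mul_of_nonneg_right _ h3.le
            linarith
        rw [h2]
        linarith)
    rw [hlen p q hp0.le hpq.le (by linarith)] at hvar
    rw [hself p le_rfl hpq.le, mul_zero] at hvar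
    have hpos : 0 < q - p := by linarith
    have h7 : q - p ≤ (2 * R / H) * ang (f p) (f q) - ‖f q‖ - (0 - ‖f p‖) := by
      by_contra hcon
      push Not at hcon
      have : ENNReal.ofReal ((2 * R / H) * ang (f p) (f q) - ‖f q‖ - (0 - ‖f p‖))
          < ENNReal.ofReal (q - p) := (ENNReal.ofReal_lt_ofReal_iff hpos).mpr hcon
      exact absurd hvar (not_le.mpr this)
    have h8 : d (i + M) = ang (f p) (f q) := rfl
    have h9 : U (i + M) - U (i + M + 1) = ((q + ‖f q‖) - (p + ‖f p‖)) / 2 := by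
      simp only [hUdef, hq, hp]; ring
    rw [h8, h9]
    have h10 : (2 * R / H) * ang (f p) (f q) * H = 2 * R * ang (f p) (f q) := by
      field_simp
    have h11 : ((q + ‖f q‖) - (p + ‖f p‖)) ≤ (2 * R / H) * ang (f p) (f q) := by linarith
    have h12 := mul_le_mul_of_nonneg_right h11 hHpos.le
    rw [h10] at h12
    linarith

end Pool.Agent.H41
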