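import Mathlib
import Pool.Agent.H41.Oriented

open Real Set Filter

namespace Pool.Agent.H41

lemma cdet_conj (z w : ℂ) :
    cdet ((starRingEnd ℂ) z) ((starRingEnd ℂ) w) = - cdet z w := by
  simp [cdet]; ring

theorem unoriented_false (K Λ : ℝ) (hK : 1 < K) (hΛ : 0 < Λ) (f : ℝ → ℂ)
    (hlen : ∀ x y, 0 ≤ x → x ≤ y → y ≤ Λ → eVariationOn f (Icc x y) = ENNReal.ofReal (y - x))
    (hf0 : f 0 = 0)
    (hmono : ∀ y, 0 < y → y ≤ Λ →
      StrictMonoOn (fun x => cdet (f y) (f x)) (Icc (exp (-K) * y) y) ∨
      StrictAntiOn (fun x => cdet (f y) (f x)) (Icc (exp (-K) * y) y)) : False := by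
  have hlip : ∀ x y, 0 ≤ x → x ≤ y → y ≤ Λ → ‖f y - f x‖ ≤ y - x := by
    intro x y hx hxy hy
    have h1 : edist (f y) (f x) ≤ eVariationOn f (Icc x y) :=
      eVariationOn.edist_le f ⟨hxy, le_rfl⟩ ⟨le_rfl, hxy⟩
    rw [hlen x y hx hxy hy, edist_dist, dist_eq_norm,
      ENNReal.ofReal_le_ofReal_iff (by linarith)] at h1
    exact h1
  have hcont : ContinuousOn f (Icc 0 Λ) := by
    have : LipschitzOnWith 1 f (Icc 0 Λ) := by
      apply LipschitzOnWith.of_dist_le_mul
      intro x hx y hy
      rw [NNReal.coe_one, one_mul, dist_eq_norm, Real.dist_eq]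
      rcases le_total x y with h | h
      · rw [norm_sub_rev]
        have := hlip x y hx.1 h hy.2
        rw [abs_sub_comm, abs_of_nonneg (by linarith)]
        exact this
      · have := hlip y x hy.1 h hx.2
        rw [abs_of_nonneg (by linarith)]
        exact this
    exact this.continuousOn
  have hexp0 := exp_pos (-K)
  have hexp1 : exp (-K) < 1 := by rw [exp_lt_one_iff]; linarith
  set P : Set (ℝ × ℝ) := {z | 0 < z.1 ∧ z.1 < z.2 ∧ z.2 ≤ Λ ∧ exp (-K) * z.2 ≤ z.1} with hP
  have hPconv : Convex ℝ P := by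
    intro z hz w hw s t hs ht hst
    simp only [hP, mem_ofPred_eq, Prod.fst_add, Prod.snd_add, Prod.smul_fst, Prod.smul_snd,
      smul_eq_mul] at hz hw ⊢
    obtain ⟨z1, z2, z3, z4⟩ := hz
    obtain ⟨w1, w2, w3, w4⟩ := hw
    rcases hs.eq_or_lt with h0 | h0
    · subst h0
      have : t = 1 := by linarith
      subst this
      simp only [zero_mul, one_mul, zero_add]
      exact ⟨w1, w2, w3, w4⟩
    · refine ⟨?_, ?_, ?_, ?_⟩
      · have := mul_pos h0 z1
        have := mul_nonneg ht w1.le
        linarith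
      · have := mul_lt_mul_of_pos_left z2 h0
        have := mul_le_mul_of_nonneg_left w2.le ht
        linarith
      · have a1 := mul_le_mul_of_nonneg_left z3 hs
        have a2 := mul_le_mul_of_nonneg_left w3 ht
        have : s * Λ + t * Λ = Λ := by rw [← add_mul, hst, one_mul]
        linarith
      · have a1 := mul_le_mul_of_nonneg_left z4 hs
        have a2 := mul_le_mul_of_nonneg_left w4 ht
        linarith
  set F : ℝ × ℝ → ℝ := fun z => cdet (f z.1) (f z.2) with hF
  have hfst : ContinuousOn (fun z : ℝ × ℝ => f z.1) P := by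
    apply hcont.comp continuousOn_fst
    intro z hz
    exact ⟨hz.1.le, by linarith [hz.2.1, hz.2.2.1]⟩
  have hsnd : ContinuousOn (fun z : ℝ × ℝ => f z.2) P := by
    apply hcont.comp continuousOn_snd
    intro z hz
    exact ⟨by linarith [hz.1, hz.2.1], hz.2.2.1⟩
  have hFcont : ContinuousOn F P := by
    simp only [hF, cdet]
    have r1 := Complex.continuous_re.comp_continuousOn hfst
    have i1 := Complex.continuous_im.comp_continuousOn hfst
    have r2 := Complex.continuous_re.comp_continuousOn hsnd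
    have i2 := Complex.continuous_im.comp_continuousOn hsnd
    exact (r1.mul i2).sub (i1.mul r2)
  have hFne : ∀ z ∈ P, F z ≠ 0 := by
    intro z hz h0
    obtain ⟨z1, z2, z3, z4⟩ := hz
    simp only [hF] at h0
    have hm1 : z.1 ∈ Icc (exp (-K) * z.2) z.2 := ⟨z4, z2.le⟩
    have hm2 : z.2 ∈ Icc (exp (-K) * z.2) z.2 := ⟨by nlinarith, le_rfl⟩
    rcases hmono z.2 (by linarith) z3 with h | h
    · have := h hm1 hm2 z2
      simp only [cdet_self] at this
      rw [cdet_swap] at this
      linarith
    · have := h hm1 hm2 z2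
      simp only [cdet_self] at this
      rw [cdet_swap] at this
      linarith
  have hsign : (∀ z ∈ P, 0 < F z) ∨ (∀ z ∈ P, F z < 0) := by
    by_contra hcon
    push Not at hcon
    obtain ⟨⟨z, hz, hz0⟩, ⟨w, hw, hw0⟩⟩ := hcon
    have himg : (F '' P).OrdConnected :=
      (hPconv.isPreconnected.image F hFcont).ordConnected
    have : (0 : ℝ) ∈ F '' P := himg.out (mem_image_of_mem F hz) (mem_image_of_mem F hw)
      ⟨hz0, hw0⟩
    obtain ⟨v, hv, hv0⟩ := this
    exact hFne v hv hv0
  rcases hsign with hpos | hneg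
  · apply oriented_false K Λ hK hΛ f hlen hf0
    intro x1 x2 y h1 h2 h3 h4 h5
    rw [cdet_sub_right]
    have hy : 0 < y := by linarith
    have hcy : exp (-K) * y < y := by nlinarith
    have hym : y ∈ Icc (exp (-K) * y) y := ⟨hcy.le, le_rfl⟩
    have hm1 : x1 ∈ Icc (exp (-K) * y) y := ⟨h5, by linarith⟩
    have hm2 : x2 ∈ Icc (exp (-K) * y) y := ⟨by linarith, h3⟩
    rcases hmono y hy h4 with h | h
    · have := h hm1 hm2 h2
      simp only at this
      linarith
    · exfalso
      have h6 := h hm1 hym (by linarith)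
      simp only [cdet_self] at h6
      have h7 : 0 < cdet (f x1) (f y) := hpos (x1, y) ⟨h1, by simp only; linarith, h4, h5⟩
      rw [cdet_swap] at h7
      linarith
  · have hiso : ∀ x y, 0 ≤ x → x ≤ y → y ≤ Λ →
        eVariationOn (fun s => (starRingEnd ℂ) (f s)) (Icc x y) = ENNReal.ofReal (y - x) := by
      intro x y h1 h2 h3
      rw [← hlen x y h1 h2 h3]
      simp only [eVariationOn]
      congr 1
      funext p
      apply Finset.sum_congr rfl
      intro i _
      rw [edist_dist, edist_dist]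
      congr 1
      rw [dist_eq_norm, dist_eq_norm, ← map_sub]
      exact RCLike.norm_conj _
    apply oriented_false K Λ hK hΛ (fun s => (starRingEnd ℂ) (f s)) hiso
    · simp [hf0]
    intro x1 x2 y h1 h2 h3 h4 h5
    rw [← map_sub, cdet_conj, cdet_sub_right]
    have hy : 0 < y := by linarith
    have hcy : exp (-K) * y < y := by nlinarith
    have hym : y ∈ Icc (exp (-K) * y) y := ⟨hcy.le, le_rfl⟩
    have hm1 : x1 ∈ Icc (exp (-K) * y) y := ⟨h5, by linarith⟩
    have hm2 : x2 ∈ Icc (exp (-K) * y) y := ⟨by linarith, h3⟩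
    rcases hmono y hy h4 with h | h
    · exfalso
      have h6 := h hm1 hym (by linarith)
      simp only [cdet_self] at h6
      have h7 : cdet (f x1) (f y) < 0 := hneg (x1, y) ⟨h1, by simp only; linarith, h4, h5⟩
      rw [cdet_swap] at h7
      linarith
    · have := h hm1 hm2 h2
      simp only at this
      linarith

end Pool.Agent.H41
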